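import Pool.Agent.Lib.MP_fdb342_lc.Main
import Pool.Agent.Lib.MP_fdb342_lc.Truth

/-!
# The first-order theory of the field of constructible numbers is undecidable

`Omega` is the field of constructible numbers: the subfield of `ℂ` consisting of all numbers which
lie in a finite Galois extension of `ℚ` (inside `ℂ`) of degree a power of two, that is, the
maximal pro-`2` Galois extension of `ℚ`.  `formulaCode` is an explicit injective Gödel numbering of
the formulas of the language of rings `{0, 1, +, -, ·}`, and `TrueIn M φ` says that the sentence
`φ` is true in the ring `M`.
-/

open FirstOrder

namespace Pool.Agent.Results.MP_fdb342_lc.OmegaUndecidable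

open Pool.Agent.Lib.MP_fdb342_lc

/-- **The field of constructible numbers is undecidable**: there is no algorithm which decides
whether a given first-order sentence of the language of rings is true in the field `Omega` of
constructible numbers. -/
theorem result :
    Function.Injective (fun φ : Language.ring.Sentence => formulaCode φ) ∧
      ¬ ∃ f : ℕ → Bool, Computable f ∧
        ∀ φ : Language.ring.Sentence, (f (formulaCode φ) = true ↔ TrueIn Omega φ) := by
  refine ⟨formulaCode_injective, ?_⟩
  let _ := FirstOrder.Ring.compatibleRingOfRing Omega
  exact omega_undecidable

end Pool.Agent.Results.MP_fdb342_lc.OmegaUndecidable
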